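import Pool.Agent.LKV.Stmts
import Pool.Agent.Helper59_LKU.EXB

/-! # LKV row EXV: the example with inner links 1, b, 1, b, 1 -/

set_option autoImplicit false

namespace Pool.Agent.LKV.H79

open Pool.Agent.LCK Pool.Agent.LKT Pool.Agent.LKU Pool.Agent.LKV

/-- real determinant of four rows -/
def dr (p q r s : Fin 4 → ℝ) : ℝ :=
  p 0 * (q 1 * (r 2 * s 3 - r 3 * s 2) - q 2 * (r 1 * s 3 - r 3 * s 1) +
      q 3 * (r 1 * s 2 - r 2 * s 1)) -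
    p 1 * (q 0 * (r 2 * s 3 - r 3 * s 2) - q 2 * (r 0 * s 3 - r 3 * s 0) +
      q 3 * (r 0 * s 2 - r 2 * s 0)) +
    p 2 * (q 0 * (r 1 * s 3 - r 3 * s 1) - q 1 * (r 0 * s 3 - r 3 * s 0) +
      q 3 * (r 0 * s 1 - r 1 * s 0)) -
    p 3 * (q 0 * (r 1 * s 2 - r 2 * s 1) - q 1 * (r 0 * s 2 - r 2 * s 0) +
      q 2 * (r 0 * s 1 - r 1 * s 0))

/-- homogeneous coordinates of the eight points, up to positive factors -/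
def R (b : ℝ) : Fin 8 → Fin 4 → ℝ := ![
    ![0, 0, -1, 0],
    ![77, 0, 0, 0],
    ![77, 63, -42, -14],
    ![77, 63 - 49 * b, -42 + 42 * b, -14 + 42 * b],
    ![77, 41 - 49 * b, -108 + 42 * b, -47 + 42 * b],
    ![77, 41 - 7 * b, -108 + 105 * b, -47 + 28 * b],
    ![77, -1 - 7 * b, -150 + 105 * b, 2 + 28 * b],
    ![0, 2, 3, -6]]

theorem dr_cast (a b c d : ℝ) (p q r s : Fin 4 → ℝ) :
    d4 (fun i => a * p i) (fun i => b * q i) (fun i => c * r i)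
      (fun i => d * s i) = a * b * c * d * dr p q r s := by
  rw [Pool.Agent.LKU.H59.d4_eq]
  unfold dr
  ring

lemma q0 (b : ℝ) (h1 : 0 ≤ 6 / 5 - b) (h2 : 0 ≤ b - 21 / 20) :
    0 < ((-1 : ℤ) : ℝ) * dr (R b 0) (R b 1) (R b 2) (R b 6) := by
  have e : ((-1 : ℤ) : ℝ) * dr (R b 0) (R b 1) (R b 2) (R b 6) = (8624) + (128282) * b ^ 1 := by
    simp [dr, R]
    try ring
  rw [e]
  nlinarith [mul_nonneg h1 h2, mul_nonneg h1 h1, mul_nonneg h2 h2]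

lemma q1 (b : ℝ) (h1 : 0 ≤ 6 / 5 - b) (h2 : 0 ≤ b - 21 / 20) :
    0 < ((1 : ℤ) : ℝ) * dr (R b 0) (R b 1) (R b 2) (R b 7) := by
  have e : ((1 : ℤ) : ℝ) * dr (R b 0) (R b 1) (R b 2) (R b 7) = (26950) := by
    simp [dr, R]
    try ring
  rw [e]
  nlinarith [mul_nonneg h1 h2, mul_nonneg h1 h1, mul_nonneg h2 h2]

lemma q2 (b : ℝ) (h1 : 0 ≤ 6 / 5 - b) (h2 : 0 ≤ b - 21 / 20) :
    0 < ((-1 : ℤ) : ℝ) * dr (R b 0) (R b 1) (R b 3) (R b 4) := by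
  have e : ((-1 : ℤ) : ℝ) * dr (R b 0) (R b 1) (R b 3) (R b 4) = (-183799) + (195657) * b ^ 1 := by
    simp [dr, R]
    try ring
  rw [e]
  nlinarith [mul_nonneg h1 h2, mul_nonneg h1 h1, mul_nonneg h2 h2]

lemma q3 (b : ℝ) (h1 : 0 ≤ 6 / 5 - b) (h2 : 0 ≤ b - 21 / 20) :
    0 < ((1 : ℤ) : ℝ) * dr (R b 0) (R b 1) (R b 3) (R b 5) := by
  have e : ((1 : ℤ) : ℝ) * dr (R b 0) (R b 1) (R b 3) (R b 5) = (183799) + (-173019) * b ^ 1 + (83006) * b ^ 2 := by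
    simp [dr, R]
    try ring
  rw [e]
  nlinarith [mul_nonneg h1 h2, mul_nonneg h1 h1, mul_nonneg h2 h2]

lemma q4 (b : ℝ) (h1 : 0 ≤ 6 / 5 - b) (h2 : 0 ≤ b - 21 / 20) :
    0 < ((-1 : ℤ) : ℝ) * dr (R b 0) (R b 1) (R b 3) (R b 6) := by
  have e : ((-1 : ℤ) : ℝ) * dr (R b 0) (R b 1) (R b 3) (R b 6) = (8624) + (123970) * b ^ 1 + (-83006) * b ^ 2 := by
    simp [dr, R]
    try ring
  rw [e]
  nlinarith [mul_nonneg h1 h2, mul_nonneg h1 h1, mul_nonneg h2 h2]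

lemma q5 (b : ℝ) (h1 : 0 ≤ 6 / 5 - b) (h2 : 0 ≤ b - 21 / 20) :
    0 < ((1 : ℤ) : ℝ) * dr (R b 0) (R b 1) (R b 3) (R b 7) := by
  have e : ((1 : ℤ) : ℝ) * dr (R b 0) (R b 1) (R b 3) (R b 7) = (26950) + (-16170) * b ^ 1 := by
    simp [dr, R]
    try ring
  rw [e]
  nlinarith [mul_nonneg h1 h2, mul_nonneg h1 h1, mul_nonneg h2 h2]

lemma q6 (b : ℝ) (h1 : 0 ≤ 6 / 5 - b) (h2 : 0 ≤ b - 21 / 20) :
    0 < ((-1 : ℤ) : ℝ) * dr (R b 0) (R b 1) (R b 4) (R b 5) := by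
  have e : ((-1 : ℤ) : ℝ) * dr (R b 0) (R b 1) (R b 4) (R b 5) = (0) + (107800) * b ^ 1 + (-83006) * b ^ 2 := by
    simp [dr, R]
    try ring
  rw [e]
  nlinarith [mul_nonneg h1 h2, mul_nonneg h1 h1, mul_nonneg h2 h2]

lemma q7 (b : ℝ) (h1 : 0 ≤ 6 / 5 - b) (h2 : 0 ≤ b - 21 / 20) :
    0 < ((1 : ℤ) : ℝ) * dr (R b 0) (R b 1) (R b 4) (R b 6) := by
  have e : ((1 : ℤ) : ℝ) * dr (R b 0) (R b 1) (R b 4) (R b 6) = (-2695) + (-58751) * b ^ 1 + (83006) * b ^ 2 := by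
    simp [dr, R]
    try ring
  rw [e]
  nlinarith [mul_nonneg h1 h2, mul_nonneg h1 h1, mul_nonneg h2 h2]

lemma q8 (b : ℝ) (h1 : 0 ≤ 6 / 5 - b) (h2 : 0 ≤ b - 21 / 20) :
    0 < ((-1 : ℤ) : ℝ) * dr (R b 0) (R b 1) (R b 4) (R b 7) := by
  have e : ((-1 : ℤ) : ℝ) * dr (R b 0) (R b 1) (R b 4) (R b 7) = (-11704) + (16170) * b ^ 1 := by
    simp [dr, R]
    try ring
  rw [e]
  nlinarith [mul_nonneg h1 h2, mul_nonneg h1 h1, mul_nonneg h2 h2]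

lemma q9 (b : ℝ) (h1 : 0 ≤ 6 / 5 - b) (h2 : 0 ≤ b - 21 / 20) :
    0 < ((-1 : ℤ) : ℝ) * dr (R b 0) (R b 1) (R b 5) (R b 6) := by
  have e : ((-1 : ℤ) : ℝ) * dr (R b 0) (R b 1) (R b 5) (R b 6) = (2695) + (64141) * b ^ 1 := by
    simp [dr, R]
    try ring
  rw [e]
  nlinarith [mul_nonneg h1 h2, mul_nonneg h1 h1, mul_nonneg h2 h2]

lemma q10 (b : ℝ) (h1 : 0 ≤ 6 / 5 - b) (h2 : 0 ≤ b - 21 / 20) :
    0 < ((1 : ℤ) : ℝ) * dr (R b 0) (R b 1) (R b 5) (R b 7) := by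
  have e : ((1 : ℤ) : ℝ) * dr (R b 0) (R b 1) (R b 5) (R b 7) = (11704) + (1078) * b ^ 1 := by
    simp [dr, R]
    try ring
  rw [e]
  nlinarith [mul_nonneg h1 h2, mul_nonneg h1 h1, mul_nonneg h2 h2]

lemma q11 (b : ℝ) (h1 : 0 ≤ 6 / 5 - b) (h2 : 0 ≤ b - 21 / 20) :
    0 < ((1 : ℤ) : ℝ) * dr (R b 0) (R b 1) (R b 6) (R b 7) := by
  have e : ((1 : ℤ) : ℝ) * dr (R b 0) (R b 1) (R b 6) (R b 7) = (-154) + (1078) * b ^ 1 := by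
    simp [dr, R]
    try ring
  rw [e]
  nlinarith [mul_nonneg h1 h2, mul_nonneg h1 h1, mul_nonneg h2 h2]

lemma q12 (b : ℝ) (h1 : 0 ≤ 6 / 5 - b) (h2 : 0 ≤ b - 21 / 20) :
    0 < ((-1 : ℤ) : ℝ) * dr (R b 0) (R b 2) (R b 4) (R b 7) := by
  have e : ((-1 : ℤ) : ℝ) * dr (R b 0) (R b 2) (R b 4) (R b 7) = (15246) + (16170) * b ^ 1 := by
    simp [dr, R]
    try ring
  rw [e]
  nlinarith [mul_nonneg h1 h2, mul_nonneg h1 h1, mul_nonneg h2 h2]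

lemma q13 (b : ℝ) (h1 : 0 ≤ 6 / 5 - b) (h2 : 0 ≤ b - 21 / 20) :
    0 < ((-1 : ℤ) : ℝ) * dr (R b 0) (R b 2) (R b 6) (R b 7) := by
  have e : ((-1 : ℤ) : ℝ) * dr (R b 0) (R b 2) (R b 6) (R b 7) = (27104) + (-1078) * b ^ 1 := by
    simp [dr, R]
    try ring
  rw [e]
  nlinarith [mul_nonneg h1 h2, mul_nonneg h1 h1, mul_nonneg h2 h2]

lemma q14 (b : ℝ) (h1 : 0 ≤ 6 / 5 - b) (h2 : 0 ≤ b - 21 / 20) :
    0 < ((-1 : ℤ) : ℝ) * dr (R b 0) (R b 3) (R b 4) (R b 5) := by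
  have e : ((-1 : ℤ) : ℝ) * dr (R b 0) (R b 3) (R b 4) (R b 5) = (0) + (130438) * b ^ 1 := by
    simp [dr, R]
    try ring
  rw [e]
  nlinarith [mul_nonneg h1 h2, mul_nonneg h1 h1, mul_nonneg h2 h2]

lemma q15 (b : ℝ) (h1 : 0 ≤ 6 / 5 - b) (h2 : 0 ≤ b - 21 / 20) :
    0 < ((1 : ℤ) : ℝ) * dr (R b 0) (R b 3) (R b 4) (R b 6) := by
  have e : ((1 : ℤ) : ℝ) * dr (R b 0) (R b 3) (R b 4) (R b 6) = (189728) + (-130438) * b ^ 1 := by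
    simp [dr, R]
    try ring
  rw [e]
  nlinarith [mul_nonneg h1 h2, mul_nonneg h1 h1, mul_nonneg h2 h2]

lemma q16 (b : ℝ) (h1 : 0 ≤ 6 / 5 - b) (h2 : 0 ≤ b - 21 / 20) :
    0 < ((-1 : ℤ) : ℝ) * dr (R b 0) (R b 3) (R b 4) (R b 7) := by
  have e : ((-1 : ℤ) : ℝ) * dr (R b 0) (R b 3) (R b 4) (R b 7) = (15246) := by
    simp [dr, R]
    try ring
  rw [e]
  nlinarith [mul_nonneg h1 h2, mul_nonneg h1 h1, mul_nonneg h2 h2]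

lemma q17 (b : ℝ) (h1 : 0 ≤ 6 / 5 - b) (h2 : 0 ≤ b - 21 / 20) :
    0 < ((-1 : ℤ) : ℝ) * dr (R b 0) (R b 3) (R b 6) (R b 7) := by
  have e : ((-1 : ℤ) : ℝ) * dr (R b 0) (R b 3) (R b 6) (R b 7) = (27104) + (-17248) * b ^ 1 := by
    simp [dr, R]
    try ring
  rw [e]
  nlinarith [mul_nonneg h1 h2, mul_nonneg h1 h1, mul_nonneg h2 h2]

lemma q18 (b : ℝ) (h1 : 0 ≤ 6 / 5 - b) (h2 : 0 ≤ b - 21 / 20) :
    0 < ((-1 : ℤ) : ℝ) * dr (R b 0) (R b 4) (R b 5) (R b 6) := by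
  have e : ((-1 : ℤ) : ℝ) * dr (R b 0) (R b 4) (R b 5) (R b 6) = (0) + (113190) * b ^ 1 := by
    simp [dr, R]
    try ring
  rw [e]
  nlinarith [mul_nonneg h1 h2, mul_nonneg h1 h1, mul_nonneg h2 h2]

lemma q19 (b : ℝ) (h1 : 0 ≤ 6 / 5 - b) (h2 : 0 ≤ b - 21 / 20) :
    0 < ((1 : ℤ) : ℝ) * dr (R b 0) (R b 4) (R b 5) (R b 7) := by
  have e : ((1 : ℤ) : ℝ) * dr (R b 0) (R b 4) (R b 5) (R b 7) = (0) + (17248) * b ^ 1 := by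
    simp [dr, R]
    try ring
  rw [e]
  nlinarith [mul_nonneg h1 h2, mul_nonneg h1 h1, mul_nonneg h2 h2]

lemma q20 (b : ℝ) (h1 : 0 ≤ 6 / 5 - b) (h2 : 0 ≤ b - 21 / 20) :
    0 < ((1 : ℤ) : ℝ) * dr (R b 0) (R b 4) (R b 6) (R b 7) := by
  have e : ((1 : ℤ) : ℝ) * dr (R b 0) (R b 4) (R b 6) (R b 7) = (-11858) + (17248) * b ^ 1 := by
    simp [dr, R]
    try ring
  rw [e]
  nlinarith [mul_nonneg h1 h2, mul_nonneg h1 h1, mul_nonneg h2 h2]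

lemma q21 (b : ℝ) (h1 : 0 ≤ 6 / 5 - b) (h2 : 0 ≤ b - 21 / 20) :
    0 < ((-1 : ℤ) : ℝ) * dr (R b 0) (R b 5) (R b 6) (R b 7) := by
  have e : ((-1 : ℤ) : ℝ) * dr (R b 0) (R b 5) (R b 6) (R b 7) = (11858) := by
    simp [dr, R]
    try ring
  rw [e]
  nlinarith [mul_nonneg h1 h2, mul_nonneg h1 h1, mul_nonneg h2 h2]

lemma q22 (b : ℝ) (h1 : 0 ≤ 6 / 5 - b) (h2 : 0 ≤ b - 21 / 20) :
    0 < ((1 : ℤ) : ℝ) * dr (R b 1) (R b 2) (R b 3) (R b 4) := by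
  have e : ((1 : ℤ) : ℝ) * dr (R b 1) (R b 2) (R b 3) (R b 4) = (0) + (10458756) * b ^ 1 := by
    simp [dr, R]
    try ring
  rw [e]
  nlinarith [mul_nonneg h1 h2, mul_nonneg h1 h1, mul_nonneg h2 h2]

lemma q23 (b : ℝ) (h1 : 0 ≤ 6 / 5 - b) (h2 : 0 ≤ b - 21 / 20) :
    0 < ((-1 : ℤ) : ℝ) * dr (R b 1) (R b 2) (R b 3) (R b 5) := by
  have e : ((-1 : ℤ) : ℝ) * dr (R b 1) (R b 2) (R b 3) (R b 5) = (0) + (-10458756) * b ^ 1 + (13945008) * b ^ 2 := by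
    simp [dr, R]
    try ring
  rw [e]
  nlinarith [mul_nonneg h1 h2, mul_nonneg h1 h1, mul_nonneg h2 h2]

lemma q24 (b : ℝ) (h1 : 0 ≤ 6 / 5 - b) (h2 : 0 ≤ b - 21 / 20) :
    0 < ((1 : ℤ) : ℝ) * dr (R b 1) (R b 2) (R b 3) (R b 6) := by
  have e : ((1 : ℤ) : ℝ) * dr (R b 1) (R b 2) (R b 3) (R b 6) = (0) + (22819104) * b ^ 1 + (-13945008) * b ^ 2 := by
    simp [dr, R]
    try ring
  rw [e]
  nlinarith [mul_nonneg h1 h2, mul_nonneg h1 h1, mul_nonneg h2 h2]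

lemma q25 (b : ℝ) (h1 : 0 ≤ 6 / 5 - b) (h2 : 0 ≤ b - 21 / 20) :
    0 < ((1 : ℤ) : ℝ) * dr (R b 1) (R b 2) (R b 4) (R b 5) := by
  have e : ((1 : ℤ) : ℝ) * dr (R b 1) (R b 2) (R b 4) (R b 5) = (0) + (18551841) * b ^ 1 + (-13945008) * b ^ 2 := by
    simp [dr, R]
    try ring
  rw [e]
  nlinarith [mul_nonneg h1 h2, mul_nonneg h1 h1, mul_nonneg h2 h2]

lemma q26 (b : ℝ) (h1 : 0 ≤ 6 / 5 - b) (h2 : 0 ≤ b - 21 / 20) :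
    0 < ((-1 : ℤ) : ℝ) * dr (R b 1) (R b 2) (R b 4) (R b 6) := by
  have e : ((-1 : ℤ) : ℝ) * dr (R b 1) (R b 2) (R b 4) (R b 6) = (28388052) + (-30912189) * b ^ 1 + (13945008) * b ^ 2 := by
    simp [dr, R]
    try ring
  rw [e]
  nlinarith [mul_nonneg h1 h2, mul_nonneg h1 h1, mul_nonneg h2 h2]

lemma q27 (b : ℝ) (h1 : 0 ≤ 6 / 5 - b) (h2 : 0 ≤ b - 21 / 20) :
    0 < ((1 : ℤ) : ℝ) * dr (R b 1) (R b 2) (R b 4) (R b 7) := by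
  have e : ((1 : ℤ) : ℝ) * dr (R b 1) (R b 2) (R b 4) (R b 7) = (2970429) + (-905520) * b ^ 1 := by
    simp [dr, R]
    try ring
  rw [e]
  nlinarith [mul_nonneg h1 h2, mul_nonneg h1 h1, mul_nonneg h2 h2]

lemma q28 (b : ℝ) (h1 : 0 ≤ 6 / 5 - b) (h2 : 0 ≤ b - 21 / 20) :
    0 < ((1 : ℤ) : ℝ) * dr (R b 1) (R b 2) (R b 5) (R b 6) := by
  have e : ((1 : ℤ) : ℝ) * dr (R b 1) (R b 2) (R b 5) (R b 6) = (-28388052) + (28286181) * b ^ 1 := by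
    simp [dr, R]
    try ring
  rw [e]
  nlinarith [mul_nonneg h1 h2, mul_nonneg h1 h1, mul_nonneg h2 h2]

lemma q29 (b : ℝ) (h1 : 0 ≤ 6 / 5 - b) (h2 : 0 ≤ b - 21 / 20) :
    0 < ((-1 : ℤ) : ℝ) * dr (R b 1) (R b 2) (R b 5) (R b 7) := by
  have e : ((-1 : ℤ) : ℝ) * dr (R b 1) (R b 2) (R b 5) (R b 7) = (-2970429) + (3259872) * b ^ 1 := by
    simp [dr, R]
    try ring
  rw [e]
  nlinarith [mul_nonneg h1 h2, mul_nonneg h1 h1, mul_nonneg h2 h2]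

lemma q30 (b : ℝ) (h1 : 0 ≤ 6 / 5 - b) (h2 : 0 ≤ b - 21 / 20) :
    0 < ((1 : ℤ) : ℝ) * dr (R b 1) (R b 2) (R b 6) (R b 7) := by
  have e : ((1 : ℤ) : ℝ) * dr (R b 1) (R b 2) (R b 6) (R b 7) = (4023096) + (-3259872) * b ^ 1 := by
    simp [dr, R]
    try ring
  rw [e]
  nlinarith [mul_nonneg h1 h2, mul_nonneg h1 h1, mul_nonneg h2 h2]

lemma q31 (b : ℝ) (h1 : 0 ≤ 6 / 5 - b) (h2 : 0 ≤ b - 21 / 20) :
    0 < ((1 : ℤ) : ℝ) * dr (R b 1) (R b 3) (R b 4) (R b 5) := by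
  have e : ((1 : ℤ) : ℝ) * dr (R b 1) (R b 3) (R b 4) (R b 5) = (0) + (18551841) * b ^ 1 + (-12326391) * b ^ 2 := by
    simp [dr, R]
    try ring
  rw [e]
  nlinarith [mul_nonneg h1 h2, mul_nonneg h1 h1, mul_nonneg h2 h2]

lemma q32 (b : ℝ) (h1 : 0 ≤ 6 / 5 - b) (h2 : 0 ≤ b - 21 / 20) :
    0 < ((-1 : ℤ) : ℝ) * dr (R b 1) (R b 3) (R b 4) (R b 6) := by
  have e : ((-1 : ℤ) : ℝ) * dr (R b 1) (R b 3) (R b 4) (R b 6) = (28388052) + (-37975245) * b ^ 1 + (12326391) * b ^ 2 := by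
    simp [dr, R]
    try ring
  rw [e]
  nlinarith [mul_nonneg h1 h2, mul_nonneg h1 h1, mul_nonneg h2 h2]

lemma q33 (b : ℝ) (h1 : 0 ≤ 6 / 5 - b) (h2 : 0 ≤ b - 21 / 20) :
    0 < ((1 : ℤ) : ℝ) * dr (R b 1) (R b 3) (R b 4) (R b 7) := by
  have e : ((1 : ℤ) : ℝ) * dr (R b 1) (R b 3) (R b 4) (R b 7) = (2970429) + (-2294523) * b ^ 1 := by
    simp [dr, R]
    try ring
  rw [e]
  nlinarith [mul_nonneg h1 h2, mul_nonneg h1 h1, mul_nonneg h2 h2]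

lemma q34 (b : ℝ) (h1 : 0 ≤ 6 / 5 - b) (h2 : 0 ≤ b - 21 / 20) :
    0 < ((-1 : ℤ) : ℝ) * dr (R b 1) (R b 3) (R b 5) (R b 6) := by
  have e : ((-1 : ℤ) : ℝ) * dr (R b 1) (R b 3) (R b 5) (R b 6) = (28388052) + (-35349237) * b ^ 1 + (11330319) * b ^ 2 := by
    simp [dr, R]
    try ring
  rw [e]
  nlinarith [mul_nonneg h1 h2, mul_nonneg h1 h1, mul_nonneg h2 h2]

lemma q35 (b : ℝ) (h1 : 0 ≤ 6 / 5 - b) (h2 : 0 ≤ b - 21 / 20) :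
    0 < ((1 : ℤ) : ℝ) * dr (R b 1) (R b 3) (R b 6) (R b 7) := by
  have e : ((1 : ℤ) : ℝ) * dr (R b 1) (R b 3) (R b 6) (R b 7) = (4023096) + (-5678904) * b ^ 1 + (1992144) * b ^ 2 := by
    simp [dr, R]
    try ring
  rw [e]
  nlinarith [mul_nonneg h1 h2, mul_nonneg h1 h1, mul_nonneg h2 h2]

lemma q36 (b : ℝ) (h1 : 0 ≤ 6 / 5 - b) (h2 : 0 ≤ b - 21 / 20) :
    0 < ((1 : ℤ) : ℝ) * dr (R b 1) (R b 4) (R b 5) (R b 6) := by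
  have e : ((1 : ℤ) : ℝ) * dr (R b 1) (R b 4) (R b 5) (R b 6) = (0) + (16921905) * b ^ 1 + (-11330319) * b ^ 2 := by
    simp [dr, R]
    try ring
  rw [e]
  nlinarith [mul_nonneg h1 h2, mul_nonneg h1 h1, mul_nonneg h2 h2]

lemma q37 (b : ℝ) (h1 : 0 ≤ 6 / 5 - b) (h2 : 0 ≤ b - 21 / 20) :
    0 < ((-1 : ℤ) : ℝ) * dr (R b 1) (R b 4) (R b 5) (R b 7) := by
  have e : ((-1 : ℤ) : ℝ) * dr (R b 1) (R b 4) (R b 5) (R b 7) = (0) + (2923536) * b ^ 1 + (-1992144) * b ^ 2 := by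
    simp [dr, R]
    try ring
  rw [e]
  nlinarith [mul_nonneg h1 h2, mul_nonneg h1 h1, mul_nonneg h2 h2]

lemma q38 (b : ℝ) (h1 : 0 ≤ 6 / 5 - b) (h2 : 0 ≤ b - 21 / 20) :
    0 < ((-1 : ℤ) : ℝ) * dr (R b 1) (R b 4) (R b 6) (R b 7) := by
  have e : ((-1 : ℤ) : ℝ) * dr (R b 1) (R b 4) (R b 6) (R b 7) = (-1764147) + (3953565) * b ^ 1 + (-1992144) * b ^ 2 := by
    simp [dr, R]
    try ring
  rw [e]
  nlinarith [mul_nonneg h1 h2, mul_nonneg h1 h1, mul_nonneg h2 h2]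

lemma q39 (b : ℝ) (h1 : 0 ≤ 6 / 5 - b) (h2 : 0 ≤ b - 21 / 20) :
    0 < ((1 : ℤ) : ℝ) * dr (R b 1) (R b 5) (R b 6) (R b 7) := by
  have e : ((1 : ℤ) : ℝ) * dr (R b 1) (R b 5) (R b 6) (R b 7) = (1764147) + (-1392237) * b ^ 1 := by
    simp [dr, R]
    try ring
  rw [e]
  nlinarith [mul_nonneg h1 h2, mul_nonneg h1 h1, mul_nonneg h2 h2]

lemma q40 (b : ℝ) (h1 : 0 ≤ 6 / 5 - b) (h2 : 0 ≤ b - 21 / 20) :
    0 < ((-1 : ℤ) : ℝ) * dr (R b 2) (R b 3) (R b 4) (R b 5) := by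
  have e : ((-1 : ℤ) : ℝ) * dr (R b 2) (R b 3) (R b 4) (R b 5) = (0) + (0) * b ^ 1 + (12326391) * b ^ 2 := by
    simp [dr, R]
    try ring
  rw [e]
  nlinarith [mul_nonneg h1 h2, mul_nonneg h1 h1, mul_nonneg h2 h2]

lemma q41 (b : ℝ) (h1 : 0 ≤ 6 / 5 - b) (h2 : 0 ≤ b - 21 / 20) :
    0 < ((1 : ℤ) : ℝ) * dr (R b 2) (R b 3) (R b 4) (R b 6) := by
  have e : ((1 : ℤ) : ℝ) * dr (R b 2) (R b 3) (R b 4) (R b 6) = (0) + (19423404) * b ^ 1 + (-12326391) * b ^ 2 := by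
    simp [dr, R]
    try ring
  rw [e]
  nlinarith [mul_nonneg h1 h2, mul_nonneg h1 h1, mul_nonneg h2 h2]

lemma q42 (b : ℝ) (h1 : 0 ≤ 6 / 5 - b) (h2 : 0 ≤ b - 21 / 20) :
    0 < ((-1 : ℤ) : ℝ) * dr (R b 2) (R b 3) (R b 4) (R b 7) := by
  have e : ((-1 : ℤ) : ℝ) * dr (R b 2) (R b 3) (R b 4) (R b 7) = (0) + (2294523) * b ^ 1 := by
    simp [dr, R]
    try ring
  rw [e]
  nlinarith [mul_nonneg h1 h2, mul_nonneg h1 h1, mul_nonneg h2 h2]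

lemma q43 (b : ℝ) (h1 : 0 ≤ 6 / 5 - b) (h2 : 0 ≤ b - 21 / 20) :
    0 < ((1 : ℤ) : ℝ) * dr (R b 2) (R b 3) (R b 5) (R b 6) := by
  have e : ((1 : ℤ) : ℝ) * dr (R b 2) (R b 3) (R b 5) (R b 6) = (0) + (19423404) * b ^ 1 + (-11330319) * b ^ 2 := by
    simp [dr, R]
    try ring
  rw [e]
  nlinarith [mul_nonneg h1 h2, mul_nonneg h1 h1, mul_nonneg h2 h2]

lemma q44 (b : ℝ) (h1 : 0 ≤ 6 / 5 - b) (h2 : 0 ≤ b - 21 / 20) :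
    0 < ((-1 : ℤ) : ℝ) * dr (R b 2) (R b 3) (R b 6) (R b 7) := by
  have e : ((-1 : ℤ) : ℝ) * dr (R b 2) (R b 3) (R b 6) (R b 7) = (0) + (3324552) * b ^ 1 + (-1992144) * b ^ 2 := by
    simp [dr, R]
    try ring
  rw [e]
  nlinarith [mul_nonneg h1 h2, mul_nonneg h1 h1, mul_nonneg h2 h2]

lemma q45 (b : ℝ) (h1 : 0 ≤ 6 / 5 - b) (h2 : 0 ≤ b - 21 / 20) :
    0 < ((-1 : ℤ) : ℝ) * dr (R b 2) (R b 4) (R b 5) (R b 6) := by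
  have e : ((-1 : ℤ) : ℝ) * dr (R b 2) (R b 4) (R b 5) (R b 6) = (0) + (-996072) * b ^ 1 + (11330319) * b ^ 2 := by
    simp [dr, R]
    try ring
  rw [e]
  nlinarith [mul_nonneg h1 h2, mul_nonneg h1 h1, mul_nonneg h2 h2]

lemma q46 (b : ℝ) (h1 : 0 ≤ 6 / 5 - b) (h2 : 0 ≤ b - 21 / 20) :
    0 < ((1 : ℤ) : ℝ) * dr (R b 2) (R b 4) (R b 6) (R b 7) := by
  have e : ((1 : ℤ) : ℝ) * dr (R b 2) (R b 4) (R b 6) (R b 7) = (711480) + (-1599213) * b ^ 1 + (1992144) * b ^ 2 := by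
    simp [dr, R]
    try ring
  rw [e]
  nlinarith [mul_nonneg h1 h2, mul_nonneg h1 h1, mul_nonneg h2 h2]

lemma q47 (b : ℝ) (h1 : 0 ≤ 6 / 5 - b) (h2 : 0 ≤ b - 21 / 20) :
    0 < ((-1 : ℤ) : ℝ) * dr (R b 2) (R b 5) (R b 6) (R b 7) := by
  have e : ((-1 : ℤ) : ℝ) * dr (R b 2) (R b 5) (R b 6) (R b 7) = (-711480) + (1392237) * b ^ 1 := by
    simp [dr, R]
    try ring
  rw [e]
  nlinarith [mul_nonneg h1 h2, mul_nonneg h1 h1, mul_nonneg h2 h2]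

lemma q48 (b : ℝ) (h1 : 0 ≤ 6 / 5 - b) (h2 : 0 ≤ b - 21 / 20) :
    0 < ((1 : ℤ) : ℝ) * dr (R b 3) (R b 4) (R b 5) (R b 6) := by
  have e : ((1 : ℤ) : ℝ) * dr (R b 3) (R b 4) (R b 5) (R b 6) = (0) + (996072) * b ^ 1 := by
    simp [dr, R]
    try ring
  rw [e]
  nlinarith [mul_nonneg h1 h2, mul_nonneg h1 h1, mul_nonneg h2 h2]

lemma q49 (b : ℝ) (h1 : 0 ≤ 6 / 5 - b) (h2 : 0 ≤ b - 21 / 20) :
    0 < ((-1 : ℤ) : ℝ) * dr (R b 3) (R b 4) (R b 5) (R b 7) := by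
  have e : ((-1 : ℤ) : ℝ) * dr (R b 3) (R b 4) (R b 5) (R b 7) = (0) + (569184) * b ^ 1 := by
    simp [dr, R]
    try ring
  rw [e]
  nlinarith [mul_nonneg h1 h2, mul_nonneg h1 h1, mul_nonneg h2 h2]

lemma q50 (b : ℝ) (h1 : 0 ≤ 6 / 5 - b) (h2 : 0 ≤ b - 21 / 20) :
    0 < ((1 : ℤ) : ℝ) * dr (R b 3) (R b 4) (R b 6) (R b 7) := by
  have e : ((1 : ℤ) : ℝ) * dr (R b 3) (R b 4) (R b 6) (R b 7) = (711480) + (-569184) * b ^ 1 := by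
    simp [dr, R]
    try ring
  rw [e]
  nlinarith [mul_nonneg h1 h2, mul_nonneg h1 h1, mul_nonneg h2 h2]

lemma q51 (b : ℝ) (h1 : 0 ≤ 6 / 5 - b) (h2 : 0 ≤ b - 21 / 20) :
    0 < ((1 : ℤ) : ℝ) * dr (R b 3) (R b 5) (R b 6) (R b 7) := by
  have e : ((1 : ℤ) : ℝ) * dr (R b 3) (R b 5) (R b 6) (R b 7) = (711480) + (-362208) * b ^ 1 := by
    simp [dr, R]
    try ring
  rw [e]
  nlinarith [mul_nonneg h1 h2, mul_nonneg h1 h1, mul_nonneg h2 h2]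

lemma q52 (b : ℝ) (h1 : 0 ≤ 6 / 5 - b) (h2 : 0 ≤ b - 21 / 20) :
    0 < ((-1 : ℤ) : ℝ) * dr (R b 4) (R b 5) (R b 6) (R b 7) := by
  have e : ((-1 : ℤ) : ℝ) * dr (R b 4) (R b 5) (R b 6) (R b 7) = (0) + (362208) * b ^ 1 := by
    simp [dr, R]
    try ring
  rw [e]
  nlinarith [mul_nonneg h1 h2, mul_nonneg h1 h1, mul_nonneg h2 h2]

lemma signs (b : ℝ) (h1 : 0 ≤ 6 / 5 - b) (h2 : 0 ≤ b - 21 / 20) : ∀ i < 53,
    0 < ((tb2 i).2.2.2.2 : ℝ) * dr (R b (tb2 i).1) (R b (tb2 i).2.1) (R b (tb2 i).2.2.1) (R b (tb2 i).2.2.2.1) := by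
  intro i hi
  interval_cases i
  · exact q0 b h1 h2
  · exact q1 b h1 h2
  · exact q2 b h1 h2
  · exact q3 b h1 h2
  · exact q4 b h1 h2
  · exact q5 b h1 h2
  · exact q6 b h1 h2
  · exact q7 b h1 h2
  · exact q8 b h1 h2
  · exact q9 b h1 h2
  · exact q10 b h1 h2
  · exact q11 b h1 h2
  · exact q12 b h1 h2
  · exact q13 b h1 h2
  · exact q14 b h1 h2
  · exact q15 b h1 h2
  · exact q16 b h1 h2
  · exact q17 b h1 h2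
  · exact q18 b h1 h2
  · exact q19 b h1 h2
  · exact q20 b h1 h2
  · exact q21 b h1 h2
  · exact q22 b h1 h2
  · exact q23 b h1 h2
  · exact q24 b h1 h2
  · exact q25 b h1 h2
  · exact q26 b h1 h2
  · exact q27 b h1 h2
  · exact q28 b h1 h2
  · exact q29 b h1 h2
  · exact q30 b h1 h2
  · exact q31 b h1 h2
  · exact q32 b h1 h2
  · exact q33 b h1 h2
  · exact q34 b h1 h2
  · exact q35 b h1 h2
  · exact q36 b h1 h2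
  · exact q37 b h1 h2
  · exact q38 b h1 h2
  · exact q39 b h1 h2
  · exact q40 b h1 h2
  · exact q41 b h1 h2
  · exact q42 b h1 h2
  · exact q43 b h1 h2
  · exact q44 b h1 h2
  · exact q45 b h1 h2
  · exact q46 b h1 h2
  · exact q47 b h1 h2
  · exact q48 b h1 h2
  · exact q49 b h1 h2
  · exact q50 b h1 h2
  · exact q51 b h1 h2
  · exact q52 b h1 h2
/-- scaling factors -/
noncomputable def cf (G G' : ℝ) : Fin 8 → ℝ := ![G, 1 / 77, 1 / 77, 1 / 77, 1 / 77, 1 / 77, 1 / 77, G' / 7]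

/-- the example -/
noncomputable def ex (b G G' : ℝ) : Fin 8 → E3 :=
  fun k => WithLp.toLp 2 ![cf G G' k * R b k 1, cf G G' k * R b k 2, cf G G' k * R b k 3]

theorem hom_ex (b G G' : ℝ) (k : Fin 8) : hom (ex b G G') k = fun i => cf G G' k * R b k i := by
  funext i
  fin_cases k <;> fin_cases i <;> simp [hom, ex, cf, R]

theorem cf_pos (G G' : ℝ) (h : 0 < G) (h' : 0 < G') (k : Fin 8) : 0 < cf G G' k := by
  fin_cases k <;> simp [cf] <;> assumption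

theorem exv : ExvStmt := by
  intro b G G' hb hb' h h'
  have h1 : 0 ≤ 6 / 5 - b := by linarith
  have h2 : 0 ≤ b - 21 / 20 := by linarith
  refine ⟨ex b G G', ?_, ?_, ?_, ?_, ?_, ?_, ?_, ?_, ?_⟩
  · intro i hi
    unfold F2 D
    rw [hom_ex, hom_ex, hom_ex, hom_ex, dr_cast]
    have h3 := mul_pos (mul_pos (mul_pos (mul_pos (cf_pos G G' h h' (tb2 i).1)
      (cf_pos G G' h h' (tb2 i).2.1)) (cf_pos G G' h h' (tb2 i).2.2.1))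
      (cf_pos G G' h h' (tb2 i).2.2.2.1)) (signs b h1 h2 i hi)
    calc (0 : ℝ) < _ := h3
      _ = _ := by ring
  · unfold D
    rw [hom_ex, hom_ex, hom_ex, hom_ex, dr_cast]
    have h3 : dr (R b 0) (R b 1) (R b 2) (R b 3) ≠ 0 := by
      have e : dr (R b 0) (R b 1) (R b 2) (R b 3) = -150920 * b := by
        simp [dr, R]
        ring
      rw [e]
      have : 0 < b := by linarith
      exact mul_ne_zero (by norm_num) this.ne'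
    exact mul_ne_zero (mul_ne_zero (mul_ne_zero (mul_ne_zero (cf_pos G G' h h' _).ne'
      (cf_pos G G' h h' _).ne') (cf_pos G G' h h' _).ne') (cf_pos G G' h h' _).ne') h3
  · refine Pool.Agent.LKU.H59.nrm _ _ h.le ?_
    simp [ex, cf, R]
  · refine Pool.Agent.LKU.H59.nrm _ _ h'.le ?_
    simp [ex, cf, R]
    ring
  · refine Pool.Agent.LKU.H59.nrm _ _ (by norm_num) ?_
    simp [ex, cf, R]
    norm_num
  · refine Pool.Agent.LKU.H59.nrm _ _ (by linarith) ?_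
    simp [ex, cf, R]
    ring
  · refine Pool.Agent.LKU.H59.nrm _ _ (by norm_num) ?_
    simp [ex, cf, R]
    ring
  · refine Pool.Agent.LKU.H59.nrm _ _ (by linarith) ?_
    simp [ex, cf, R]
    ring
  · refine Pool.Agent.LKU.H59.nrm _ _ (by norm_num) ?_
    simp [ex, cf, R]
    ring

end Pool.Agent.LKV.H79
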