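import Pool.Agent.Helper79_LKU.ALL
import Pool.Agent.Helper72_LKV.RBV
import Pool.Agent.Helper79_LKV.FNV
import Pool.Agent.Helper79_LKV.EXV

/-!
# Squad LKV: assembly
-/

set_option autoImplicit false

namespace Pool.Agent.LKV.H79

open Pool.Agent.LCK Pool.Agent.LKT Pool.Agent.LKU Pool.Agent.LKV

theorem fnv_all : FnvStmt :=
  fnv Pool.Agent.LKU.H77.afb Pool.Agent.LKU.H68.wnb (Pool.Agent.LKU.H63.wli Pool.Agent.LKT.H27.crm)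
    (Pool.Agent.LKU.H66.wlo Pool.Agent.LKT.H27.crm)
    (Pool.Agent.LKU.H32.wlz Pool.Agent.LKT.H27.crm) Pool.Agent.LKU.H6.opb
    (Pool.Agent.LKT.H36.abs Pool.Agent.LKT.H75.one)
    (Pool.Agent.LKU.H45.geb Pool.Agent.LKT.H35.nvd (Pool.Agent.LKU.H44.gnb Pool.Agent.LKT.H27.crm)
      Pool.Agent.LKT.H16.gex)
    (Pool.Agent.LKU.H11.rdx Pool.Agent.LKT.H27.crm) Pool.Agent.LKU.H79.mcl Pool.Agent.LKV.H72.rbv
    (Pool.Agent.LKT.H88.smp Pool.Agent.LKT.H27.crm) exv Pool.Agent.LKT.H70.mir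

theorem exw_all : ExwStmt := exw fnv_all

/-- the theorem for inner links `u, b u, u, b u, u` -/
theorem main (n : ℕ) (l : Fin n → ℝ) (hl : ∀ k, 0 < l k) (s : ℕ) (hs : s + 7 ≤ n) (u b : ℝ)
    (h1 : l ⟨s + 1, by omega⟩ = u) (h2 : l ⟨s + 2, by omega⟩ = b * u) (h3 : l ⟨s + 3, by omega⟩ = u)
    (h4 : l ⟨s + 4, by omega⟩ = b * u) (h5 : l ⟨s + 5, by omega⟩ = u)
    (h0 : (1 + b) * u < l ⟨s, by omega⟩) (h6 : (1 + b) * u < l ⟨s + 6, by omega⟩)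
    (h : (b = 1 ∧ (Real.sqrt 5 * u < l ⟨s, by omega⟩ ∨ Real.sqrt 5 * u < l ⟨s + 6, by omega⟩)) ∨
      (21 / 20 ≤ b ∧ b ≤ 6 / 5)) : Locked l := by
  have hu : 0 < u := by rw [← h1]; exact hl _
  have hu' : 0 < u⁻¹ := inv_pos.2 hu
  rcases h with ⟨hb, h⟩ | ⟨hb, hb'⟩
  · subst hb
    rw [one_mul] at h2 h4
    have e : (1 : ℝ) + 1 = 2 := by norm_num
    rw [e] at h0 h6
    refine Pool.Agent.LKU.H79.main n l hl s hs u h1 h2 h3 h4 h5 ?_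
    rcases h with h | h
    · exact Or.inr ⟨h, h6⟩
    · exact Or.inl ⟨h0, h⟩
  · refine Pool.Agent.LKT.H79.locked_of_scaled l u⁻¹ hu' ?_
    refine exw_all b hb hb' n (fun k => u⁻¹ * l k) s hs (fun k => mul_pos hu' (hl k))
      ?_ ?_ ?_ ?_ ?_ ?_ ?_
    · show 1 + b < u⁻¹ * l ⟨s, by omega⟩
      rw [inv_mul_eq_div, lt_div_iff₀ hu]
      exact h0
    · show u⁻¹ * l ⟨s + 1, by omega⟩ = 1
      rw [h1, inv_mul_cancel₀ hu.ne']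
    · show u⁻¹ * l ⟨s + 2, by omega⟩ = b
      rw [h2, inv_mul_eq_div, mul_div_cancel_right₀ _ hu.ne']
    · show u⁻¹ * l ⟨s + 3, by omega⟩ = 1
      rw [h3, inv_mul_cancel₀ hu.ne']
    · show u⁻¹ * l ⟨s + 4, by omega⟩ = b
      rw [h4, inv_mul_eq_div, mul_div_cancel_right₀ _ hu.ne']
    · show u⁻¹ * l ⟨s + 5, by omega⟩ = 1
      rw [h5, inv_mul_cancel₀ hu.ne']
    · show 1 + b < u⁻¹ * l ⟨s + 6, by omega⟩
      rw [inv_mul_eq_div, lt_div_iff₀ hu]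
      exact h6

end Pool.Agent.LKV.H79
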